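import Mathlib

set_option autoImplicit false

open Finset Polynomial

namespace Pool.Agent.Results.MP_68af1b_co.Counter

/-- `P` is a partition of `s` into nonempty blocks of size at most `m`. -/
def IsPart (m : ℕ) (s : Finset ℕ) (P : Finset (Finset ℕ)) : Prop :=
  (∀ b ∈ P, b.Nonempty ∧ b ⊆ s ∧ b.card ≤ m) ∧ ∀ x ∈ s, ∃! b, b ∈ P ∧ x ∈ b

/-- Restricted Stirling number of the second kind. -/
noncomputable def St (n k m : ℕ) : ℕ := {P | IsPart m (Icc 1 n) P ∧ P.card = k}.ncard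

/-- Restricted Bell polynomial. -/
noncomputable def Bell (n m : ℕ) : ℝ[X] := ∑ k ∈ range (n + 1), C (St n k m : ℝ) * X ^ k

open Classical in
noncomputable def parts (m : ℕ) (s : Finset ℕ) : Finset (Finset (Finset ℕ)) :=
  s.powerset.powerset.filter (IsPart m s)

lemma mem_parts {m : ℕ} {s : Finset ℕ} {P : Finset (Finset ℕ)} :
    P ∈ parts m s ↔ IsPart m s P := by
  classical
  unfold parts
  rw [mem_filter, mem_powerset]
  exact ⟨fun h => h.2, fun h => ⟨fun b hb => mem_powerset.2 (h.1 b hb).2.1, h⟩⟩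

noncomputable def Bs (m : ℕ) (s : Finset ℕ) : ℝ[X] := ∑ P ∈ parts m s, X ^ P.card

lemma card_le {m : ℕ} {s : Finset ℕ} {P : Finset (Finset ℕ)} (h : IsPart m s P) :
    P.card ≤ s.card := by
  have : ∀ b : Finset ℕ, ∃ x, b ∈ P → x ∈ b := fun b => by
    by_cases hb : b ∈ P
    · obtain ⟨x, hx⟩ := (h.1 b hb).1
      exact ⟨x, fun _ => hx⟩
    · exact ⟨0, fun h => absurd h hb⟩
  choose f hf using this
  refine card_le_card_of_injOn f (fun b hb => (h.1 b hb).2.1 (hf b hb)) ?_
  intro b hb c hc e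
  exact (h.2 (f b) ((h.1 b hb).2.1 (hf b hb))).unique ⟨hb, hf b hb⟩ ⟨hc, e ▸ hf c hc⟩

lemma Bell_eq (n m : ℕ) : Bell n m = Bs m (Icc 1 n) := by
  unfold Bell Bs
  rw [← sum_fiberwise_of_maps_to (s := parts m (Icc 1 n)) (t := range (n + 1)) (g := card)]
  · refine sum_congr rfl (fun k _ => ?_)
    have : {P | IsPart m (Icc 1 n) P ∧ P.card = k} =
        (((parts m (Icc 1 n)).filter (fun P => P.card = k) : Finset _) : Set _) := by
      ext P; simp [mem_parts]
    rw [St, this, Set.ncard_coe_finset,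
      sum_congr rfl (g := fun _ => (X : ℝ[X]) ^ k) (fun P hP => by rw [(mem_filter.1 hP).2])]
    simp
  · intro P hP
    have := card_le (mem_parts.1 hP)
    simp at this ⊢
    omega

lemma rec1 (m : ℕ) (s : Finset ℕ) (a : ℕ) (ha : a ∈ s) :
    Bs m s = ∑ t ∈ (s.erase a).powerset.filter (fun t => t.card < m),
      X * Bs m (s.erase a \ t) := by
  unfold Bs
  simp only [mul_sum]
  rw [sum_sigma']
  symm
  have na : ∀ (t : Finset ℕ) (Q : Finset (Finset ℕ)), IsPart m (s.erase a \ t) Q →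
      ∀ b ∈ Q, a ∉ b := fun t Q hQ b hb h => by simpa using (hQ.1 b hb).2.1 h
  refine sum_bij (fun x _ => insert (insert a x.1) x.2) ?_ ?_ ?_ ?_
  · rintro ⟨t, Q⟩ hx
    simp only [mem_sigma, mem_filter, mem_powerset, mem_parts] at hx ⊢
    obtain ⟨⟨h1, h2⟩, hQ⟩ := hx
    constructor
    · intro b hb
      rcases mem_insert.1 hb with rfl | hb
      · refine ⟨insert_nonempty _ _, insert_subset ha (h1.trans (erase_subset _ _)), ?_⟩
        have := card_insert_le a t
        omega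
      · exact ⟨(hQ.1 b hb).1, (hQ.1 b hb).2.1.trans (sdiff_subset.trans (erase_subset _ _)),
          (hQ.1 b hb).2.2⟩
    · intro x hx
      by_cases hx2 : x ∈ insert a t
      · refine ⟨_, ⟨mem_insert_self _ _, hx2⟩, ?_⟩
        rintro b ⟨hb, hxb⟩
        rcases mem_insert.1 hb with rfl | hb
        · rfl
        · have := (hQ.1 b hb).2.1 hxb
          simp only [mem_sdiff, mem_erase, mem_insert] at this hx2
          tauto
      · obtain ⟨b, ⟨hb, hxb⟩, hu⟩ := hQ.2 x (by
          simp only [mem_sdiff, mem_erase, mem_insert] at hx2 ⊢; tauto)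
        refine ⟨b, ⟨mem_insert_of_mem hb, hxb⟩, ?_⟩
        rintro c ⟨hc, hxc⟩
        rcases mem_insert.1 hc with rfl | hc
        · exact absurd hxc hx2
        · exact hu c ⟨hc, hxc⟩
  · rintro ⟨t, Q⟩ hx ⟨t', Q'⟩ hx' e
    simp only [mem_sigma, mem_filter, mem_powerset, mem_parts] at hx hx' e
    have h1 : insert a t = insert a t' := by
      have : insert a t ∈ insert (insert a t') Q' := e ▸ mem_insert_self _ _
      rcases mem_insert.1 this with h | h
      · exact h
      · exact absurd (mem_insert_self _ _) (na _ _ hx'.2 _ h)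
    have h2 : t = t' := by
      rw [← erase_insert (s := t) (a := a) (fun h => by simpa using hx.1.1 h), h1,
        erase_insert (fun h => by simpa using hx'.1.1 h)]
    subst h2
    have h3 : Q = Q' := by
      rw [← erase_insert (s := Q) (a := insert a t)
        (fun h => na _ _ hx.2 _ h (mem_insert_self _ _)), e,
        erase_insert (fun h => na _ _ hx'.2 _ h (mem_insert_self _ _))]
    rw [h3]
  · intro P hP
    rw [mem_parts] at hP
    obtain ⟨b, ⟨hb, hab⟩, hu⟩ := hP.2 a ha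
    refine ⟨⟨b.erase a, P.erase b⟩, ?_, ?_⟩
    · simp only [mem_sigma, mem_filter, mem_powerset, mem_parts]
      have h1 := hP.1 b hb
      refine ⟨⟨erase_subset_erase _ h1.2.1, ?_⟩, ?_, ?_⟩
      · have := card_erase_add_one hab
        omega
      · intro c hc
        rw [mem_erase] at hc
        have h2 := hP.1 c hc.2
        refine ⟨h2.1, fun x hx => ?_, h2.2.2⟩
        have h3 : x ∉ b := fun h => hc.1 ((hP.2 x (h2.2.1 hx)).unique ⟨hc.2, hx⟩ ⟨hb, h⟩)
        simp only [mem_sdiff, mem_erase]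
        exact ⟨⟨fun h => h3 (h ▸ hab), h2.2.1 hx⟩, fun h => h3 h.2⟩
      · intro x hx
        simp only [mem_sdiff, mem_erase] at hx
        obtain ⟨c, ⟨hc, hxc⟩, hv⟩ := hP.2 x hx.1.2
        refine ⟨c, ⟨mem_erase.2 ⟨fun h => hx.2 ⟨hx.1.1, h ▸ hxc⟩, hc⟩, hxc⟩, ?_⟩
        rintro d ⟨hd, hxd⟩
        exact hv d ⟨(mem_erase.1 hd).2, hxd⟩
    · simp only
      rw [insert_erase hab, insert_erase hb]
  · rintro ⟨t, Q⟩ hx
    simp only [mem_sigma, mem_filter, mem_powerset, mem_parts] at hx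
    rw [card_insert_of_notMem (fun h => na _ _ hx.2 _ h (mem_insert_self _ _)), pow_succ']

lemma rec2 (m n : ℕ) (s : Finset ℕ) (hs : s.card = n + 1)
    (ih : ∀ u : Finset ℕ, u.card ≤ n → Bs m u = Bs m (Icc 1 u.card)) :
    Bs m s = X * ∑ j ∈ range m, C (n.choose j : ℝ) * Bs m (Icc 1 (n - j)) := by
  obtain ⟨a, ha⟩ := card_pos.1 (show 0 < s.card by omega)
  have h1 : (s.erase a).card = n := by rw [card_erase_of_mem ha]; omega
  rw [rec1 m s a ha, ← mul_sum, sum_filter]
  congr 1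
  rw [sum_congr rfl (g := fun t => (fun j => if j < m then Bs m (Icc 1 (n - j)) else 0) t.card)]
  · rw [sum_powerset_apply_card (fun j => if j < m then Bs m (Icc 1 (n - j)) else 0), h1]
    simp only [smul_ite, smul_zero, ← sum_filter, nsmul_eq_mul, map_natCast]
    refine sum_subset ?_ ?_
    · intro j hj
      simpa using (mem_filter.1 hj).2
    · intro j hj hj2
      simp only [mem_filter, mem_range, not_and] at hj hj2
      rw [Nat.choose_eq_zero_of_lt (by by_contra h; exact hj2 (by omega) hj)]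
      simp
  · intro t ht
    rw [mem_powerset] at ht
    have h2 : (s.erase a \ t).card = n - t.card := by rw [card_sdiff_of_subset ht, h1]
    rw [ih _ (by omega), h2]

lemma inv (m n : ℕ) : ∀ u : Finset ℕ, u.card ≤ n → Bs m u = Bs m (Icc 1 u.card) := by
  induction n with
  | zero =>
    intro u hu
    obtain rfl := card_eq_zero.1 (Nat.le_zero.1 hu)
    simp
  | succ n ih =>
    intro u hu
    rcases Nat.lt_or_ge u.card (n + 1) with h | h
    · exact ih u (by omega)
    · have e : u.card = n + 1 := by omega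
      rw [rec2 m n u e ih, rec2 m n (Icc 1 u.card) (by simp [e]) ih]

lemma Bell_succ (m n : ℕ) :
    Bell (n + 1) m = X * ∑ j ∈ range m, C (n.choose j : ℝ) * Bell (n - j) m := by
  simp only [Bell_eq]
  exact rec2 m n _ (by simp) (inv m n)

lemma Bell_zero (m : ℕ) : Bell 0 m = 1 := by
  have : parts m ∅ = {∅} := by
    ext P
    rw [mem_parts, mem_singleton]
    constructor
    · intro h
      have := card_le h
      simpa using this
    · rintro rfl
      simp [IsPart]
  rw [Bell_eq, Bs, show Icc 1 0 = (∅ : Finset ℕ) from rfl, this]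
  simp

theorem lag {f : ℝ[X]} (h : f.Splits) (x : ℝ) :
    f.eval x * (derivative (derivative f)).eval x ≤ (derivative f).eval x ^ 2 := by
  induction h using Submonoid.closure_induction with
  | mem g hg => rcases hg with ⟨a, rfl⟩ | ⟨a, rfl⟩ <;> simp
  | one => simp
  | mul f g _ _ i j =>
    simp only [derivative_mul, derivative_add, eval_mul, eval_add]
    nlinarith [mul_le_mul_of_nonneg_left i (sq_nonneg (g.eval x)),
      mul_le_mul_of_nonneg_left j (sq_nonneg (f.eval x))]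

structure T where
  p : ℕ
  p' : ℕ
  q : ℕ
  q' : ℕ
  r : ℕ
  r' : ℕ

def ch (n j : ℕ) : ℕ := n.descFactorial j / j.factorial

def force (z : ℕ) (f : ℕ → T) : T := Nat.rec (f 0) (fun k _ => f (Nat.succ k)) z

lemma force_eq (z : ℕ) (f : ℕ → T) : force z f = f z := by
  cases z <;> rfl

def lc (c1 c2 c3 c4 a b c d e : ℕ) : ℕ :=
  Nat.add (Nat.add (Nat.add (Nat.add a (Nat.mul c1 b)) (Nat.mul c2 c)) (Nat.mul c3 d))
    (Nat.mul c4 e)

def nxt (n : ℕ) (a b c d e : T) (f : T → T) : T :=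
  force (ch n 1) fun c1 => force (ch n 2) fun c2 => force (ch n 3) fun c3 =>
  force (ch n 4) fun c4 =>
  force (lc c1 c2 c3 c4 a.p b.p c.p d.p e.p) fun p =>
  force (lc c1 c2 c3 c4 a.p' b.p' c.p' d.p' e.p') fun p' =>
  force (lc c1 c2 c3 c4 a.q b.q c.q d.q e.q) fun q =>
  force (lc c1 c2 c3 c4 a.q' b.q' c.q' d.q' e.q') fun q' =>
  force (lc c1 c2 c3 c4 a.r b.r c.r d.r e.r) fun r =>
  force (lc c1 c2 c3 c4 a.r' b.r' c.r' d.r' e.r') fun r' =>
  force (Nat.mul 2000 p') fun x1 => force (Nat.mul 2000 p) fun x2 =>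
  force (Nat.add p (Nat.mul 2000 q')) fun x3 => force (Nat.add p' (Nat.mul 2000 q)) fun x4 =>
  force (Nat.add (Nat.mul 2 q) (Nat.mul 2000 r')) fun x5 =>
  force (Nat.add (Nat.mul 2 q') (Nat.mul 2000 r)) fun x6 => f ⟨x1, x2, x3, x4, x5, x6⟩

lemma nxt_eq (n : ℕ) (a b c d e : T) (f : T → T) : nxt n a b c d e f = f (nxt n a b c d e id) := by
  simp only [nxt, force_eq, id]

def run (k : ℕ) : ℕ → T → T → T → T → T → T :=
  Nat.rec (fun _ a _ _ _ _ => a) (fun _ ih n a b c d e =>
    force (Nat.succ n) fun n' => nxt n a b c d e fun x => ih n' x a b c d) k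

def Rep (n : ℕ) (a : T) : Prop :=
  (Bell n 5).eval (-2000) = a.p - a.p' ∧ (derivative (Bell n 5)).eval (-2000) = a.q - a.q' ∧
    (derivative (derivative (Bell n 5))).eval (-2000) = a.r - a.r'

lemma rep_nxt (n : ℕ) (a b c d e : T) (h0 : Rep n a) (h1 : Rep (n - 1) b) (h2 : Rep (n - 2) c)
    (h3 : Rep (n - 3) d) (h4 : Rep (n - 4) e) : Rep (n + 1) (nxt n a b c d e id) := by
  have hc : ∀ j, ch n j = n.choose j := fun j => by
    rw [ch, ← Nat.choose_eq_descFactorial_div_factorial]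
  unfold Rep at *
  rw [Bell_succ]
  simp only [nxt, force_eq, sum_range_succ, sum_range_zero, derivative_mul, derivative_add,
    derivative_X, derivative_C, derivative_one, eval_add, eval_mul, eval_X, eval_C, eval_one,
    eval_zero, derivative_zero, Nat.sub_zero, h0.1, h0.2.1, h0.2.2, h1.1, h1.2.1, h1.2.2,
    h2.1, h2.2.1, h2.2.2, h3.1, h3.2.1, h3.2.2, h4.1, h4.2.1, h4.2.2, Nat.choose_zero_right,
    id, lc, hc, Nat.add_eq, Nat.mul_eq]
  push_cast
  refine ⟨by ring, by ring, by ring⟩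

lemma rep_run (k : ℕ) : ∀ (n : ℕ) (a b c d e : T), Rep n a → Rep (n - 1) b → Rep (n - 2) c →
    Rep (n - 3) d → Rep (n - 4) e → Rep (n + k) (run k n a b c d e) := by
  induction k with
  | zero => intro n a b c d e h _ _ _ _; exact h
  | succ k ih =>
    intro n a b c d e h0 h1 h2 h3 h4
    rw [show n + (k + 1) = n + 1 + k by ring, show run (k + 1) n a b c d e =
      force (Nat.succ n) fun n' => nxt n a b c d e fun x => run k n' x a b c d from rfl,
      force_eq, nxt_eq]
    exact ih (n + 1) _ a b c d (rep_nxt n a b c d e h0 h1 h2 h3 h4) h0 h1 h2 h3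

def Bad (a : T) : Prop := ((a.q : ℤ) - a.q') ^ 2 < ((a.p : ℤ) - a.p') * ((a.r : ℤ) - a.r')

instance (a : T) : Decidable (Bad a) := by unfold Bad; infer_instance

lemma final (n : ℕ) (a : T) (h1 : Rep n a) (h2 : Bad a) :
    ∃ z : ℂ, aeval z (Bell n 5) = 0 ∧ z.im ≠ 0 := by
  by_contra hc
  push Not at hc
  have hs : (Bell n 5).Splits := by
    refine Splits.of_splits_map (algebraMap ℝ ℂ) (IsAlgClosed.splits _) (fun z hz => ?_)
    have := hc z (by rw [aeval_def, ← eval_map]; exact (isRoot_of_mem_roots hz).eq_zero)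
    exact ⟨z.re, Complex.ext (by simp) (by simp [this])⟩
  have h3 := lag hs (-2000)
  rw [h1.1, h1.2.1, h1.2.2] at h3
  have h4 := (Int.cast_lt (R := ℝ)).2 h2
  push_cast at h4
  linarith

lemma bad : Bad (run 773 0 ⟨1, 0, 0, 0, 0, 0⟩ ⟨1, 0, 0, 0, 0, 0⟩ ⟨1, 0, 0, 0, 0, 0⟩
    ⟨1, 0, 0, 0, 0, 0⟩ ⟨1, 0, 0, 0, 0, 0⟩) := by
  decide +kernel

theorem result : ∃ m n : ℕ, 1 ≤ m ∧ m ≠ 3 ∧ m ≠ 4 ∧ 1 ≤ n ∧
    ∃ z : ℂ, aeval z (Bell n m) = 0 ∧ z.im ≠ 0 := by
  have h0 : Rep 0 ⟨1, 0, 0, 0, 0, 0⟩ := by simp [Rep, Bell_zero]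
  exact ⟨5, 0 + 773, by norm_num, by norm_num, by norm_num, by norm_num,
    final _ _ (rep_run 773 0 _ _ _ _ _ h0 h0 h0 h0 h0) bad⟩

end Pool.Agent.Results.MP_68af1b_co.Counter
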